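import Mathlib

/-!
# The log-ozone group of a graded polynomial Poisson algebra can be larger than the rank over the
Poisson center

In every odd characteristic `p` the graded polynomial Poisson algebra `k[x, y, z, w]` with
`{w, x} = yz`, `{w, y} = xz`, `{w, z} = xy` and `{x, y} = {y, z} = {x, z} = 0` has rank at most
`p ^ 2` over its Poisson center, while its log-ozone group has at least `p ^ 3` elements.
-/

set_option autoImplicit false
set_option maxHeartbeats 4000000
set_option synthInstance.maxHeartbeats 400000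

open MvPolynomial TensorProduct

namespace Pool.Agent.Results.MP_987c99_al.LogOzoneExceedsRank

universe u

/-- A Poisson bracket over `k` on the commutative `k`-algebra `P`: a `k`-bilinear alternating
bracket satisfying the Jacobi identity and the Leibniz rule. -/
structure PoissonBracket (k P : Type u) [Field k] [CommRing P] [Algebra k P] where
  /-- the bracket -/
  br : P → P → P
  br_add : ∀ a b c, br a (b + c) = br a b + br a c
  br_smul : ∀ (r : k) (a b : P), br a (r • b) = r • br a b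
  br_self : ∀ a, br a a = 0
  br_swap : ∀ a b, br a b = - br b a
  jacobi : ∀ a b c, br a (br b c) + br b (br c a) + br c (br a b) = 0
  leibniz : ∀ a b c, br a (b * c) = br a b * c + b * br a c

section defs

variable {k P : Type u} [Field k] [CommRing P] [Algebra k P]

lemma PoissonBracket.leibniz_left (B : PoissonBracket k P) (a b c : P) :
    B.br (a * b) c = a * B.br b c + B.br a c * b := by
  rw [B.br_swap (a * b) c, B.leibniz, B.br_swap c a, B.br_swap c b]
  ring

lemma PoissonBracket.add_left (B : PoissonBracket k P) (a b c : P) :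
    B.br (a + b) c = B.br a c + B.br b c := by
  rw [B.br_swap (a + b) c, B.br_add, B.br_swap c a, B.br_swap c b]
  ring

lemma PoissonBracket.br_one (B : PoissonBracket k P) (c : P) :
    B.br 1 c = 0 := by
  have h := B.leibniz_left 1 1 c
  simp only [one_mul, mul_one] at h
  exact left_eq_add.mp h

lemma PoissonBracket.br_algebraMap (B : PoissonBracket k P) (r : k) (c : P) :
    B.br (algebraMap k P r) c = 0 := by
  rw [Algebra.algebraMap_eq_smul_one, B.br_swap, B.br_smul, B.br_swap, B.br_one, neg_zero,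
    smul_zero, neg_zero]

/-- The Poisson center. -/
def PoissonBracket.center (B : PoissonBracket k P) : Subalgebra k P where
  carrier := {z | ∀ a, B.br z a = 0}
  mul_mem' := by
    intro a b ha hb c
    rw [B.leibniz_left, ha c, hb c]
    ring
  add_mem' := by
    intro a b ha hb c
    rw [B.add_left, ha c, hb c, add_zero]
  algebraMap_mem' := B.br_algebraMap

/-- The dimension over `Q` of `Q ⊗_Z P`. -/
noncomputable def genericRank (Z P Q : Type u) [CommRing Z] [CommRing P] [Algebra Z P] [Field Q]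
    [Algebra Z Q] : Cardinal.{u} :=
  Module.rank Q (Q ⊗[Z] P)

/-- The rank of the domain `P` over its Poisson center `Z`: the dimension of `Frac(Z) ⊗_Z P` over
`Frac(Z)`. -/
noncomputable def PoissonBracket.rank [IsDomain P] (B : PoissonBracket k P) : Cardinal.{u} :=
  genericRank B.center P (FractionRing B.center)

/-- `f` is Poisson normal: `f ≠ 0` and `{a, f} ∈ f P` for all `a`. -/
def PoissonBracket.IsNormal (B : PoissonBracket k P) (f : P) : Prop :=
  f ≠ 0 ∧ ∀ a, f ∣ B.br a f

/-- `δ` is the log-ozone derivation `f⁻¹ {-, f}` of the Poisson normal element `f`. -/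
def PoissonBracket.IsLogOzone (B : PoissonBracket k P) (δ : Derivation k P P) (f : P) : Prop :=
  B.IsNormal f ∧ ∀ a, f * δ a = B.br a f

/-- The log-ozone group: the additive subgroup of `Der_k(P)` generated by all the log-ozone
derivations of Poisson normal elements. -/
def PoissonBracket.loz (B : PoissonBracket k P) : AddSubgroup (Derivation k P P) :=
  AddSubgroup.closure {δ | ∃ f, B.IsLogOzone δ f}

/-- The bracket has `{w, x} = yz`, `{w, y} = xz`, `{w, z} = xy` and
`{x, y} = {x, z} = {y, z} = 0`. -/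
def PoissonBracket.HasTable (B : PoissonBracket k P) (x y z w : P) : Prop :=
  B.br w x = y * z ∧ B.br w y = x * z ∧ B.br w z = x * y ∧ B.br x y = 0 ∧ B.br x z = 0 ∧
    B.br y z = 0

end defs

/-- A polynomial Poisson algebra `k[x_0, …, x_{n-1}]`. -/
abbrev PolyPoisson (k : Type u) [Field k] (n : ℕ) : Type u :=
  PoissonBracket k (MvPolynomial (Fin n) k)

/-- The polynomial Poisson algebra is graded: `{P_i, P_j} ⊆ P_{i+j}`. -/
def IsGraded {k : Type u} [Field k] {n : ℕ} (B : PolyPoisson k n) : Prop :=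
  ∀ (i j : ℕ) (a b : MvPolynomial (Fin n) k), a.IsHomogeneous i → b.IsHomogeneous j →
    (B.br a b).IsHomogeneous (i + j)

/-- A strong form of the negation of Q1 for fixed `p` and `k`: there is a graded polynomial Poisson algebra in four variables, with the multiplication table `HasTable`, with
rank at most `p ^ 2` and with at least `p ^ 3` elements in its log-ozone group. -/
def HasExample (p : ℕ) (k : Type u) [Field k] : Prop :=
  ∃ B : PolyPoisson k 4, IsGraded B ∧ B.HasTable (X 0) (X 1) (X 2) (X 3) ∧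
    B.rank ≤ ((p ^ 2 : ℕ) : Cardinal.{u}) ∧ ((p ^ 3 : ℕ) : Cardinal.{u}) ≤ Cardinal.mk B.loz

/-- The assertion of Q1 for the field `k` (in all numbers of variables). -/
def OrderLeRank (k : Type u) [Field k] : Prop :=
  ∀ (n : ℕ), 1 ≤ n → ∀ B : PolyPoisson k n, IsGraded B → Cardinal.mk B.loz ≤ B.rank

section rankabs

variable {Z P Q : Type*} [CommRing Z] [CommRing P] [Algebra Z P] [Field Q] [Algebra Z Q]

variable (Z Q) in
/-- The element `1 ⊗ f` of `Q ⊗_Z P`. -/
def el (f : P) : Q ⊗[Z] P := (1 : Q) ⊗ₜ[Z] f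

lemma el_mul (f g : P) : el Z Q (f * g) = el Z Q f * el Z Q g := by
  simp [el, Algebra.TensorProduct.tmul_mul_tmul]

lemma el_add (f g : P) : el Z Q (f + g) = el Z Q f + el Z Q g := by
  simp [el, TensorProduct.tmul_add]

lemma el_one : el Z Q (1 : P) = 1 := rfl

lemma el_pow (f : P) (i : ℕ) : el Z Q (f ^ i) = el Z Q f ^ i := by
  induction i with
  | zero => simp [el_one]
  | succ i ih => rw [pow_succ, el_mul, ih, pow_succ]

lemma el_alg (z : Z) : el Z Q (algebraMap Z P z) = (algebraMap Z Q z) • (1 : Q ⊗[Z] P) := by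
  have h1 : (algebraMap Z P z) = z • (1 : P) := Algebra.algebraMap_eq_smul_one z
  rw [el, h1, TensorProduct.tmul_smul, TensorProduct.smul_tmul', Algebra.smul_def, mul_one]
  rw [← el_one, el, TensorProduct.smul_tmul', smul_eq_mul, mul_one]

variable (Z Q) in
/-- The span of the elements `1 ⊗ u^i v^j` with `i, j < p`. -/
def S (p : ℕ) (u v : P) : Submodule Q (Q ⊗[Z] P) :=
  Submodule.span Q (Set.range fun i : Fin p × Fin p => el Z Q (u ^ i.1.val * v ^ i.2.val))

lemma mem_S {p : ℕ} {u v : P} {i j : ℕ} (hi : i < p) (hj : j < p) :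
    el Z Q (u ^ i * v ^ j) ∈ S Z Q p u v :=
  Submodule.subset_span ⟨(⟨i, hi⟩, ⟨j, hj⟩), rfl⟩

lemma closed_v {p : ℕ} {u v : P} (z : Z) (hv : v ^ p = algebraMap Z P z) (s : Q ⊗[Z] P)
    (hs : s ∈ S Z Q p u v) : el Z Q v * s ∈ S Z Q p u v := by
  induction hs using Submodule.span_induction with
  | mem x hx =>
    obtain ⟨⟨i, j⟩, rfl⟩ := hx
    simp only
    rw [← el_mul]
    by_cases hj : j.val + 1 < p
    · have : v * (u ^ i.val * v ^ j.val) = u ^ i.val * v ^ (j.val + 1) := by ring
      rw [this]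
      exact mem_S i.2 hj
    · have hj' : j.val + 1 = p := by have := j.2; omega
      have : v * (u ^ i.val * v ^ j.val) = v ^ (j.val + 1) * (u ^ i.val * v ^ 0) := by ring
      rw [this, hj', el_mul, hv, el_alg, smul_mul_assoc, one_mul]
      exact Submodule.smul_mem _ _ (mem_S i.2 (by omega))
  | zero => rw [mul_zero]; exact Submodule.zero_mem _
  | add x y _ _ hx hy => rw [mul_add]; exact Submodule.add_mem _ hx hy
  | smul c x _ hx => rw [mul_smul_comm]; exact Submodule.smul_mem _ _ hx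

lemma closed_u {p : ℕ} {u v : P} (z : Z) (hu : u ^ p = algebraMap Z P z) (s : Q ⊗[Z] P)
    (hs : s ∈ S Z Q p u v) : el Z Q u * s ∈ S Z Q p u v := by
  induction hs using Submodule.span_induction with
  | mem x hx =>
    obtain ⟨⟨i, j⟩, rfl⟩ := hx
    simp only
    rw [← el_mul]
    by_cases hi : i.val + 1 < p
    · have : u * (u ^ i.val * v ^ j.val) = u ^ (i.val + 1) * v ^ j.val := by ring
      rw [this]
      exact mem_S hi j.2
    · have hi' : i.val + 1 = p := by have := i.2; omega
      have : u * (u ^ i.val * v ^ j.val) = u ^ (i.val + 1) * (u ^ 0 * v ^ j.val) := by ring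
      rw [this, hi', el_mul, hu, el_alg, smul_mul_assoc, one_mul]
      exact Submodule.smul_mem _ _ (mem_S (by omega) j.2)
  | zero => rw [mul_zero]; exact Submodule.zero_mem _
  | add x y _ _ hx hy => rw [mul_add]; exact Submodule.add_mem _ hx hy
  | smul c x _ hx => rw [mul_smul_comm]; exact Submodule.smul_mem _ _ hx

lemma closed_quad {p : ℕ} {u v : P} (z : Z) (hu : u ^ p = algebraMap Z P z) (a : Q) (m : ℕ)
    (s : Q ⊗[Z] P) (hs : s ∈ S Z Q p u v) :
    (a • (1 : Q ⊗[Z] P) + el Z Q u ^ 2) ^ m * s ∈ S Z Q p u v := by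
  induction m with
  | zero => rwa [pow_zero, one_mul]
  | succ m ih =>
    have h : (a • (1 : Q ⊗[Z] P) + el Z Q u ^ 2) ^ (m + 1) * s
        = a • ((a • (1 : Q ⊗[Z] P) + el Z Q u ^ 2) ^ m * s)
          + el Z Q u * (el Z Q u * ((a • (1 : Q ⊗[Z] P) + el Z Q u ^ 2) ^ m * s)) := by
      rw [pow_succ', ← mul_assoc (el Z Q u) (el Z Q u), ← pow_two (el Z Q u), mul_assoc, add_mul,
        smul_mul_assoc, one_mul]
    rw [h]
    exact Submodule.add_mem _ (Submodule.smul_mem _ _ ih) (closed_u z hu _ (closed_u z hu _ ih))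

lemma closed_x {p : ℕ} {u v : P} (z : Z) (hu : u ^ p = algebraMap Z P z) (hodd : Odd p)
    (hinj : Function.Injective (algebraMap Z Q)) (x : P) (y a : Z)
    (hy : x ^ p = algebraMap Z P y) (hy0 : y ≠ 0) (ha : x ^ 2 = algebraMap Z P a + u ^ 2)
    (s : Q ⊗[Z] P) (hs : s ∈ S Z Q p u v) : el Z Q x * s ∈ S Z Q p u v := by
  obtain ⟨m, hm⟩ := hodd
  have hX : x ^ p * x = (algebraMap Z P a + u ^ 2) ^ (m + 1) := by
    rw [← ha, hm]; ring
  have hE := congrArg (el Z Q) hX
  rw [el_mul, hy, el_alg, el_pow, el_add, el_pow, el_alg, smul_mul_assoc, one_mul] at hE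
  have hc0 : algebraMap Z Q y ≠ 0 := by
    intro h0
    exact hy0 (hinj (h0.trans (map_zero _).symm))
  have hX' : el Z Q x = (algebraMap Z Q y)⁻¹ • ((algebraMap Z Q y) • el Z Q x) := by
    rw [smul_smul, inv_mul_cancel₀ hc0, one_smul]
  rw [hX', hE, smul_mul_assoc]
  exact Submodule.smul_mem _ _ (closed_quad z hu _ _ s hs)

/-- If `P` is generated over `Z` by `u, v, x, x'` with `u^p, v^p, x^p, x'^p` in `Z`, `x^2 - u^2` and
`x'^2 - u^2` in `Z` and `p` odd, the elements `1 ⊗ u^i v^j` with `i, j < p` span `Q ⊗_Z P`. -/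
lemma S_top {p : ℕ} {u v x x' : P} (hodd : Odd p) (hinj : Function.Injective (algebraMap Z Q))
    (hgen : Algebra.adjoin Z ({x, x', u, v} : Set P) = ⊤)
    (zu zv y y' a a' : Z) (hu : u ^ p = algebraMap Z P zu) (hv : v ^ p = algebraMap Z P zv)
    (hy : x ^ p = algebraMap Z P y) (hy0 : y ≠ 0) (ha : x ^ 2 = algebraMap Z P a + u ^ 2)
    (hy' : x' ^ p = algebraMap Z P y') (hy0' : y' ≠ 0) (ha' : x' ^ 2 = algebraMap Z P a' + u ^ 2) :
    S Z Q p u v = ⊤ := by
  have hall : ∀ f : P, ∀ s ∈ S Z Q p u v, el Z Q f * s ∈ S Z Q p u v := by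
    intro f
    have hf : f ∈ Algebra.adjoin Z ({x, x', u, v} : Set P) := by rw [hgen]; trivial
    induction hf using Algebra.adjoin_induction with
    | mem f hf =>
      intro s hs
      simp only [Set.mem_insert_iff, Set.mem_singleton_iff] at hf
      rcases hf with rfl | rfl | rfl | rfl
      · exact closed_x zu hu hodd hinj _ y a hy hy0 ha s hs
      · exact closed_x zu hu hodd hinj _ y' a' hy' hy0' ha' s hs
      · exact closed_u zu hu s hs
      · exact closed_v zv hv s hs
    | algebraMap r =>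
      intro s hs
      rw [el_alg, smul_mul_assoc, one_mul]
      exact Submodule.smul_mem _ _ hs
    | add f g _ _ hf hg =>
      intro s hs
      rw [el_add, add_mul]
      exact Submodule.add_mem _ (hf s hs) (hg s hs)
    | mul f g _ _ hf hg =>
      intro s hs
      rw [el_mul, mul_assoc]
      exact hf _ (hg s hs)
  rw [eq_top_iff]
  rintro w -
  have hpos : 0 < p := hodd.pos
  have h1 : (1 : Q ⊗[Z] P) ∈ S Z Q p u v := by
    have h := mem_S (Z := Z) (Q := Q) (u := u) (v := v) hpos hpos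
    rwa [pow_zero, pow_zero, one_mul, el_one] at h
  induction w using TensorProduct.induction_on with
  | zero => exact Submodule.zero_mem _
  | tmul q f =>
    have h2 : q ⊗ₜ[Z] f = q • (el Z Q f * 1) := by
      rw [mul_one, el, TensorProduct.smul_tmul', smul_eq_mul, mul_one]
    rw [h2]
    exact Submodule.smul_mem _ _ (hall f 1 h1)
  | add x y hx hy => exact Submodule.add_mem _ hx hy

lemma rank_le_of_top {p : ℕ} {u v : P} (h : S Z Q p u v = ⊤) :
    Module.rank Q (Q ⊗[Z] P) ≤ ((p ^ 2 : ℕ) : Cardinal) := by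
  have h1 := rank_span_le (R := Q)
    (Set.range fun i : Fin p × Fin p => el Z Q (u ^ i.1.val * v ^ i.2.val))
  have h2 : (Submodule.span Q
    (Set.range fun i : Fin p × Fin p => el Z Q (u ^ i.1.val * v ^ i.2.val))) = ⊤ := h
  rw [h2, rank_top] at h1
  have h3 := Cardinal.mk_range_le_lift
    (f := fun i : Fin p × Fin p => el Z Q (u ^ i.1.val * v ^ i.2.val))
  refine h1.trans ?_
  rw [← Cardinal.lift_id'.{0} (Cardinal.mk _)]
  refine (Cardinal.lift_le.mpr (le_refl _)).trans ?_
  refine h3.trans ?_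
  rw [Cardinal.mk_prod, Cardinal.mk_fin]
  simp [pow_two]

end rankabs

section example_

variable (k : Type u) [Field k]

/-- The derivation `yz ∂_x + xz ∂_y + xy ∂_z` of `k[x, y, z, w]`. -/
noncomputable def D : Derivation k (MvPolynomial (Fin 4) k) (MvPolynomial (Fin 4) k) :=
  (X 1 * X 2 : MvPolynomial (Fin 4) k) • pderiv 0 + (X 0 * X 2 : MvPolynomial (Fin 4) k) • pderiv 1
    + (X 0 * X 1 : MvPolynomial (Fin 4) k) • pderiv 2

lemma D_apply (f : MvPolynomial (Fin 4) k) :
    D k f = X 1 * X 2 * pderiv 0 f + X 0 * X 2 * pderiv 1 f + X 0 * X 1 * pderiv 2 f := by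
  simp [D]

lemma D_X0 : D k (X 0) = X 1 * X 2 := by
  rw [D_apply]; simp [pderiv_X]

lemma D_X1 : D k (X 1) = X 0 * X 2 := by
  rw [D_apply]; simp [pderiv_X]

lemma D_X2 : D k (X 2) = X 0 * X 1 := by
  rw [D_apply]; simp [pderiv_X]

lemma D_X3 : D k (X 3) = 0 := by
  rw [D_apply]; simp [pderiv_X]

lemma pd_X0 : pderiv (3 : Fin 4) (X 0 : MvPolynomial (Fin 4) k) = 0 := by
  simp [pderiv_X]

lemma pd_X1 : pderiv (3 : Fin 4) (X 1 : MvPolynomial (Fin 4) k) = 0 := by
  simp [pderiv_X]

lemma pd_X2 : pderiv (3 : Fin 4) (X 2 : MvPolynomial (Fin 4) k) = 0 := by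
  simp [pderiv_X]

lemma pd_X3 : pderiv (3 : Fin 4) (X 3 : MvPolynomial (Fin 4) k) = 1 := by
  simp

lemma comm_D (f : MvPolynomial (Fin 4) k) : pderiv 3 (D k f) = D k (pderiv 3 f) := by
  have h : ⁅(pderiv 3 : Derivation k (MvPolynomial (Fin 4) k) (MvPolynomial (Fin 4) k)), D k⁆ = 0 := by
    apply MvPolynomial.derivation_ext
    intro i
    rw [Derivation.commutator_apply]
    fin_cases i
    · show pderiv 3 (D k (X 0)) - D k (pderiv 3 (X 0)) = 0
      rw [D_X0, pd_X0, Derivation.leibniz, pd_X1, pd_X2]; simp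
    · show pderiv 3 (D k (X 1)) - D k (pderiv 3 (X 1)) = 0
      rw [D_X1, pd_X1, Derivation.leibniz, pd_X0, pd_X2]; simp
    · show pderiv 3 (D k (X 2)) - D k (pderiv 3 (X 2)) = 0
      rw [D_X2, pd_X2, Derivation.leibniz, pd_X0, pd_X1]; simp
    · show pderiv 3 (D k (X 3)) - D k (pderiv 3 (X 3)) = 0
      rw [D_X3, pd_X3]; simp
  have h2 := congrArg (fun E => E f) h
  simp only [Derivation.commutator_apply, Derivation.coe_zero, Pi.zero_apply] at h2
  exact sub_eq_zero.mp h2

/-- The Poisson bracket `{f, g} = ∂_w f · D g - ∂_w g · D f` on `k[x, y, z, w]`, that is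
`{w, x} = yz`, `{w, y} = xz`, `{w, z} = xy` and `{x, y} = {y, z} = {x, z} = 0`. -/
noncomputable def ex : PolyPoisson k 4 where
  br f g := pderiv 3 f * D k g - pderiv 3 g * D k f
  br_add a b c := by simp only [map_add]; ring
  br_smul r a b := by
    simp only [Derivation.map_smul, smul_mul_assoc, mul_smul_comm, smul_sub]
  br_self a := by simp
  br_swap a b := by ring
  jacobi a b c := by
    simp only [map_sub, Derivation.leibniz, smul_eq_mul, comm_D]
    ring
  leibniz a b c := by
    simp only [Derivation.leibniz, smul_eq_mul]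
    ring

lemma ex_br (f g : MvPolynomial (Fin 4) k) :
    (ex k).br f g = pderiv 3 f * D k g - pderiv 3 g * D k f := rfl

lemma isHom_pd (i : ℕ) (a : MvPolynomial (Fin 4) k) (ha : a.IsHomogeneous i) (j : Fin 4) :
    (pderiv j a).IsHomogeneous (i - 1) := ha.pderiv

lemma isHom_term (i j : ℕ) (a b : MvPolynomial (Fin 4) k) (ha : a.IsHomogeneous i)
    (hb : b.IsHomogeneous j) : (pderiv 3 a * D k b).IsHomogeneous (i + j) := by
  rcases Nat.eq_zero_or_pos i with hi | hi
  · subst hi
    have : a = C (a.coeff 0) := by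
      rw [← MvPolynomial.totalDegree_eq_zero_iff_eq_C]
      exact Nat.le_zero.mp ha.totalDegree_le
    rw [this]; simp [isHomogeneous_zero]
  rcases Nat.eq_zero_or_pos j with hj | hj
  · subst hj
    have : b = C (b.coeff 0) := by
      rw [← MvPolynomial.totalDegree_eq_zero_iff_eq_C]
      exact Nat.le_zero.mp hb.totalDegree_le
    rw [this, D_apply]; simp [isHomogeneous_zero]
  · have hD : (D k b).IsHomogeneous (2 + (j - 1)) := by
      rw [D_apply]
      have h1 : ∀ (u v : Fin 4), (X u * X v : MvPolynomial (Fin 4) k).IsHomogeneous 2 := fun u v =>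
        (isHomogeneous_X k u).mul (isHomogeneous_X k v)
      exact (((h1 1 2).mul (isHom_pd k j b hb 0)).add ((h1 0 2).mul (isHom_pd k j b hb 1))).add
        ((h1 0 1).mul (isHom_pd k j b hb 2))
    have h2 := (isHom_pd k i a ha 3).mul hD
    have h3 : i - 1 + (2 + (j - 1)) = i + j := by omega
    rwa [h3] at h2

lemma ex_graded : IsGraded (ex k) := by
  intro i j a b ha hb
  rw [ex_br]
  have h := isHom_term k j i b a hb ha
  rw [Nat.add_comm] at h
  exact (isHom_term k i j a b ha hb).sub h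

end example_

section rank

variable {k : Type u} [Field k] (p : ℕ) [CharP k p]

lemma pow_mem_center (f : MvPolynomial (Fin 4) k) : f ^ p ∈ (ex k).center := by
  intro a
  have hc : ((p : ℕ) : MvPolynomial (Fin 4) k) = 0 := CharP.cast_eq_zero _ p
  rw [ex_br, Derivation.leibniz_pow, Derivation.leibniz_pow]
  simp only [nsmul_eq_mul, hc, zero_mul, mul_zero, sub_zero]

lemma A_mem : (X 0 ^ 2 - X 2 ^ 2 : MvPolynomial (Fin 4) k) ∈ (ex k).center := by
  intro a
  rw [ex_br, map_sub, map_sub, Derivation.leibniz_pow, Derivation.leibniz_pow,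
    Derivation.leibniz_pow, Derivation.leibniz_pow, pd_X0, pd_X2, D_X0, D_X2]
  simp only [nsmul_eq_mul, smul_eq_mul]
  ring

lemma B_mem : (X 1 ^ 2 - X 2 ^ 2 : MvPolynomial (Fin 4) k) ∈ (ex k).center := by
  intro a
  rw [ex_br, map_sub, map_sub, Derivation.leibniz_pow, Derivation.leibniz_pow,
    Derivation.leibniz_pow, Derivation.leibniz_pow, pd_X1, pd_X2, D_X1, D_X2]
  simp only [nsmul_eq_mul, smul_eq_mul]
  ring


lemma ex_adjoin : Algebra.adjoin (ex k).center
    ({X 0, X 1, X 2, X 3} : Set (MvPolynomial (Fin 4) k)) = ⊤ := by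
  rw [eq_top_iff]
  rintro f -
  induction f using MvPolynomial.induction_on with
  | C r => exact Subalgebra.algebraMap_mem _ (algebraMap k (ex k).center r)
  | add f g hf hg => exact Subalgebra.add_mem _ hf hg
  | mul_X f i hf =>
    refine Subalgebra.mul_mem _ hf (Algebra.subset_adjoin ?_)
    fin_cases i <;> simp

lemma rank_le [Fact p.Prime] (hp : p ≠ 2) : (ex k).rank ≤ ((p ^ 2 : ℕ) : Cardinal.{u}) := by
  have hodd : Odd p := (Fact.out : p.Prime).odd_of_ne_two hp
  have hne : ∀ i : Fin 4, (⟨(X i) ^ p, pow_mem_center p (X i)⟩ : (ex k).center) ≠ 0 := by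
    intro i h0
    exact pow_ne_zero p (X_ne_zero i) (congrArg Subtype.val h0)
  refine rank_le_of_top (p := p) (u := (X 2 : MvPolynomial (Fin 4) k)) (v := X 3) ?_
  exact S_top hodd (IsFractionRing.injective _ _) ex_adjoin
    ⟨(X 2) ^ p, pow_mem_center p (X 2)⟩ ⟨(X 3) ^ p, pow_mem_center p (X 3)⟩
    ⟨(X 0) ^ p, pow_mem_center p (X 0)⟩ ⟨(X 1) ^ p, pow_mem_center p (X 1)⟩
    ⟨_, A_mem⟩ ⟨_, B_mem⟩ rfl rfl rfl (hne 0)
    (by show (X 0 : MvPolynomial (Fin 4) k) ^ 2 = (X 0 ^ 2 - X 2 ^ 2) + X 2 ^ 2; ring) rfl (hne 1)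
    (by show (X 1 : MvPolynomial (Fin 4) k) ^ 2 = (X 1 ^ 2 - X 2 ^ 2) + X 2 ^ 2; ring)

end rank

section loz

variable (k : Type u) [Field k]

/-- The derivation `v ∂_w`. -/
noncomputable def dl (v : MvPolynomial (Fin 4) k) :
    Derivation k (MvPolynomial (Fin 4) k) (MvPolynomial (Fin 4) k) := v • pderiv 3

lemma dl_apply (v f : MvPolynomial (Fin 4) k) : dl k v f = v * pderiv 3 f := rfl

lemma dl_mem (f v : MvPolynomial (Fin 4) k) (hf : f ≠ 0) (h3 : pderiv 3 f = 0)
    (hD : D k f = f * v) : dl k v ∈ (ex k).loz := by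
  apply AddSubgroup.subset_closure
  refine ⟨f, ⟨hf, fun a => ?_⟩, fun a => ?_⟩
  · rw [ex_br, h3, hD, zero_mul, sub_zero]
    exact ⟨v * pderiv 3 a, by ring⟩
  · rw [ex_br, h3, hD, dl_apply]
    ring

lemma X_add_X_ne (i j : Fin 4) (hij : i ≠ j) : (X i + X j : MvPolynomial (Fin 4) k) ≠ 0 := by
  intro h
  have h1 := congrArg (MvPolynomial.coeff (Finsupp.single i 1)) h
  have h2 : (Finsupp.single j 1 : Fin 4 →₀ ℕ) ≠ Finsupp.single i 1 := by
    intro h2
    rcases (Finsupp.single_eq_single_iff _ _ _ _).mp h2 with h3 | h3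
    · exact hij h3.1.symm
    · exact one_ne_zero h3.1
  simp [coeff_add, coeff_X, coeff_zero, h2] at h1

lemma dl_X0 : dl k (X 0) ∈ (ex k).loz := by
  refine dl_mem k (X 1 + X 2) (X 0) (X_add_X_ne k 1 2 (by decide)) ?_ ?_
  · rw [map_add, pd_X1, pd_X2, add_zero]
  · rw [map_add, D_X1, D_X2]; ring

lemma dl_X1 : dl k (X 1) ∈ (ex k).loz := by
  refine dl_mem k (X 0 + X 2) (X 1) (X_add_X_ne k 0 2 (by decide)) ?_ ?_
  · rw [map_add, pd_X0, pd_X2, add_zero]
  · rw [map_add, D_X0, D_X2]; ring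

lemma dl_X2 : dl k (X 2) ∈ (ex k).loz := by
  refine dl_mem k (X 0 + X 1) (X 2) (X_add_X_ne k 0 1 (by decide)) ?_ ?_
  · rw [map_add, pd_X0, pd_X1, add_zero]
  · rw [map_add, D_X0, D_X1]; ring

variable (p : ℕ) [Fact p.Prime] [CharP k p]

/-- The elements `(a x + b y + c z) ∂_w` of the log-ozone group with `a, b, c < p`. -/
noncomputable def emb (a : Fin 3 → Fin p) : (ex k).loz :=
  ⟨(a 0).val • dl k (X 0) + (a 1).val • dl k (X 1) + (a 2).val • dl k (X 2),
    add_mem (add_mem (nsmul_mem (dl_X0 k) _) (nsmul_mem (dl_X1 k) _)) (nsmul_mem (dl_X2 k) _)⟩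

omit [Fact p.Prime] [CharP k p] in
lemma emb_apply (a : Fin 3 → Fin p) :
    (emb k p a).val (X 3) = C ((a 0).val : k) * X 0 + C ((a 1).val : k) * X 1
      + C ((a 2).val : k) * X 2 := by
  show (((a 0).val • dl k (X 0) + (a 1).val • dl k (X 1) + (a 2).val • dl k (X 2) :
    Derivation k (MvPolynomial (Fin 4) k) (MvPolynomial (Fin 4) k))) (X 3) = _
  rw [Derivation.add_apply, Derivation.add_apply, Derivation.smul_apply, Derivation.smul_apply,
    Derivation.smul_apply, dl_apply, dl_apply, dl_apply, pd_X3]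
  simp only [mul_one, nsmul_eq_mul, map_natCast]

lemma coeff_lin (r0 r1 r2 : k) (i : Fin 4) :
    MvPolynomial.coeff (Finsupp.single i 1)
      (C r0 * X 0 + C r1 * X 1 + C r2 * X 2 : MvPolynomial (Fin 4) k)
      = r0 * (if i = 0 then 1 else 0) + r1 * (if i = 1 then 1 else 0)
        + r2 * (if i = 2 then 1 else 0) := by
  have h : ∀ j : Fin 4, MvPolynomial.coeff (Finsupp.single i 1) (X j : MvPolynomial (Fin 4) k)
      = if i = j then 1 else 0 := by
    intro j
    by_cases hij : i = j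
    · subst hij; simp [coeff_X]
    · have h2 : (Finsupp.single j 1 : Fin 4 →₀ ℕ) ≠ Finsupp.single i 1 := by
        intro h2
        rcases (Finsupp.single_eq_single_iff _ _ _ _).mp h2 with h3 | h3
        · exact hij h3.1.symm
        · exact one_ne_zero h3.1
      simp [coeff_X, h2, hij]
  rw [coeff_add, coeff_add, coeff_C_mul, coeff_C_mul, coeff_C_mul, h, h, h]

omit [Fact p.Prime] [CharP k p] in
lemma coeff_emb (a : Fin 3 → Fin p) (i : Fin 3) :
    MvPolynomial.coeff (Finsupp.single (i.castSucc) 1) ((emb k p a).val (X 3))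
      = ((a i).val : k) := by
  rw [emb_apply, coeff_lin]
  fin_cases i
  · simp
  · simp
  · simp

omit [Fact p.Prime] in
lemma emb_injective : Function.Injective (emb k p) := by
  intro a b hab
  funext i
  have h1 : ((a i).val : k) = ((b i).val : k) := by
    rw [← coeff_emb k p a i, ← coeff_emb k p b i, hab]
  have h2 := (CharP.cast_eq_iff_mod_eq k p).mp h1
  rw [Nat.mod_eq_of_lt (a i).2, Nat.mod_eq_of_lt (b i).2] at h2
  exact Fin.ext h2

omit [Fact p.Prime] in
lemma le_card_loz : ((p ^ 3 : ℕ) : Cardinal.{u}) ≤ Cardinal.mk (ex k).loz := by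
  have h := Cardinal.lift_mk_le_lift_mk_of_injective (emb_injective k p)
  have h2 : Cardinal.mk (Fin 3 → Fin p) = ((p ^ 3 : ℕ) : Cardinal.{0}) := by simp
  rw [h2, Cardinal.lift_natCast] at h
  simpa using h

end loz

/-- For every field `k` of odd characteristic `p` the graded polynomial Poisson algebra
`k[x, y, z, w]` with `{w, x} = yz`, `{w, y} = xz`, `{w, z} = xy`, `{x, y} = {x, z} = {y, z} = 0`
has rank at most `p ^ 2` over its Poisson center and a log-ozone group with at least `p ^ 3`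
elements. In particular the inequality `|loz(P)| ≤ rk_{Z(P)}(P)` of Q1 does not hold for all graded
polynomial Poisson algebras. -/
theorem result :
    (∀ (p : ℕ) [Fact p.Prime] (_ : p ≠ 2) (k : Type u) [Field k] [CharP k p], HasExample p k) ∧
    ¬ (∀ (p : ℕ) [Fact p.Prime] (k : Type u) [Field k] [CharP k p], OrderLeRank k) := by
  have main : ∀ (p : ℕ) [Fact p.Prime] (_ : p ≠ 2) (k : Type u) [Field k] [CharP k p],
      (ex k).rank ≤ ((p ^ 2 : ℕ) : Cardinal.{u}) ∧
        ((p ^ 3 : ℕ) : Cardinal.{u}) ≤ Cardinal.mk (ex k).loz := fun p _ hp k _ _ =>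
    ⟨rank_le p hp, le_card_loz k p⟩
  refine ⟨fun p _ hp k _ _ => ⟨ex k, ex_graded k, ⟨?_, ?_, ?_, ?_, ?_, ?_⟩, (main p hp k).1,
    (main p hp k).2⟩, ?_⟩
  · rw [ex_br, pd_X3, pd_X0, D_X0]; ring
  · rw [ex_br, pd_X3, pd_X1, D_X1]; ring
  · rw [ex_br, pd_X3, pd_X2, D_X2]; ring
  · rw [ex_br, pd_X0, pd_X1]; ring
  · rw [ex_br, pd_X0, pd_X2]; ring
  · rw [ex_br, pd_X1, pd_X2]; ring
  · intro H
    have hf : Fact (Nat.Prime 3) := ⟨by norm_num⟩
    let k := ULift.{u} (ZMod 3)
    have hchar : CharP k 3 := inferInstance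
    have h1 := H 3 k 4 (by norm_num) (ex k) (ex_graded k)
    have h2 := main 3 (by norm_num) k
    have h3 := h2.2.trans (h1.trans h2.1)
    have h4 : (3 ^ 3 : ℕ) ≤ 3 ^ 2 := by exact_mod_cast h3
    norm_num at h4

end Pool.Agent.Results.MP_987c99_al.LogOzoneExceedsRank
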